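import Pool.Agent.W325.KZ.Defs

/-!
# Project KZ, part DET
-/

set_option autoImplicit false

open Finset

namespace Pool.Agent.W513.KZ

open Pool.Agent.W325.KZ

/-- Lagrange identity -/
lemma lagrange (D : ℕ) (c d : ℕ → ℝ) :
    (∑ k ∈ range D, c k ^ 2) * (∑ k ∈ range D, d k ^ 2) - (∑ k ∈ range D, c k * d k) ^ 2 =
      (1 / 2) * ∑ k ∈ range D, ∑ l ∈ range D, (c k * d l - c l * d k) ^ 2 := by
  have h1 : ∑ k ∈ range D, ∑ l ∈ range D, (c k * d l - c l * d k) ^ 2 =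
      ∑ k ∈ range D, ∑ l ∈ range D, (c k ^ 2 * d l ^ 2) +
        ∑ k ∈ range D, ∑ l ∈ range D, (d k ^ 2 * c l ^ 2) -
        2 * ∑ k ∈ range D, ∑ l ∈ range D, ((c k * d k) * (c l * d l)) := by
    rw [mul_sum, ← sum_add_distrib, ← sum_sub_distrib]
    refine sum_congr rfl fun k _ => ?_
    rw [mul_sum, ← sum_add_distrib, ← sum_sub_distrib]
    refine sum_congr rfl fun l _ => ?_
    ring
  rw [h1, ← sum_mul_sum, ← sum_mul_sum, ← sum_mul_sum]
  ring

lemma sum_id (N : ℕ) : ∑ k ∈ range N, (k : ℝ) = N * (N - 1) / 2 := by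
  induction N with
  | zero => simp
  | succ n ih => rw [sum_range_succ, ih]; push_cast; ring

lemma sum_sq (N : ℕ) : ∑ k ∈ range N, (k : ℝ) ^ 2 = (N - 1) * N * (2 * N - 1) / 6 := by
  induction N with
  | zero => simp
  | succ n ih => rw [sum_range_succ, ih]; push_cast; ring

lemma sum_diff_sq (N : ℕ) : ∑ k ∈ range N, ∑ l ∈ range N, ((l : ℝ) - k) ^ 2 =
    N ^ 2 * (N ^ 2 - 1) / 6 := by
  have h1 : ∑ k ∈ range N, ∑ l ∈ range N, ((l : ℝ) - k) ^ 2 =
      ∑ k ∈ range N, ∑ l ∈ range N, ((1 : ℝ) * (l : ℝ) ^ 2) +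
        ∑ k ∈ range N, ∑ l ∈ range N, ((k : ℝ) ^ 2 * 1) -
        2 * ∑ k ∈ range N, ∑ l ∈ range N, ((k : ℝ) * (l : ℝ)) := by
    rw [mul_sum, ← sum_add_distrib, ← sum_sub_distrib]
    refine sum_congr rfl fun k _ => ?_
    rw [mul_sum, ← sum_add_distrib, ← sum_sub_distrib]
    refine sum_congr rfl fun l _ => ?_
    ring
  rw [h1]
  rw [← sum_mul_sum (range N) (range N) (fun _ => (1 : ℝ)) (fun l => (l : ℝ) ^ 2),
    ← sum_mul_sum (range N) (range N) (fun k => (k : ℝ) ^ 2) (fun _ => (1 : ℝ)),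
    ← sum_mul_sum (range N) (range N) (fun k => (k : ℝ)) (fun l => (l : ℝ)), sum_id, sum_sq]
  simp only [sum_const, card_range, nsmul_eq_mul, mul_one]
  ring

lemma pow_low (N : ℕ) (hN : 2 ≤ N) (x : ℝ) (hx : 1 - 1 / (N : ℝ) ≤ x) :
    Real.exp (-4) ≤ x ^ (2 * N) := by
  have hN' : (2 : ℝ) ≤ N := by exact_mod_cast hN
  have hN0 : (0 : ℝ) < N := by linarith
  have h1 : 1 / (N : ℝ) ≤ 1 / 2 := by
    apply one_div_le_one_div_of_le <;> linarith
  have hx0 : 0 < x := by linarith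
  have hy0 : 0 < 1 - 1 / (N : ℝ) := by linarith
  have h2 : 1 - (1 - 1 / (N : ℝ))⁻¹ ≤ Real.log (1 - 1 / (N : ℝ)) :=
    Real.one_sub_inv_le_log_of_pos hy0
  have h3 : -(2 / (N : ℝ)) ≤ 1 - (1 - 1 / (N : ℝ))⁻¹ := by
    have : (1 - 1 / (N : ℝ))⁻¹ = N / (N - 1) := by
      have : (N : ℝ) - 1 ≠ 0 := by intro h; linarith
      field_simp
    rw [this]
    have h4 : (N : ℝ) / (N - 1) = 1 + 1 / (N - 1) := by
      have : (N : ℝ) - 1 ≠ 0 := by intro h; linarith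
      field_simp
      ring
    rw [h4]
    have h5 : 1 / ((N : ℝ) - 1) ≤ 2 / N := by
      rw [div_le_div_iff₀ (by linarith) hN0]
      linarith
    linarith
  have h6 : Real.log (1 - 1 / (N : ℝ)) ≤ Real.log x := Real.log_le_log hy0 hx
  have h7 : -(2 / (N : ℝ)) ≤ Real.log x := by linarith
  have h8 : x ^ (2 * N) = Real.exp ((2 * N : ℕ) * Real.log x) := by
    rw [Real.exp_nat_mul, Real.exp_log hx0]
  rw [h8]
  apply Real.exp_le_exp.mpr
  push_cast
  have h9 : (2 * (N : ℝ)) * (-(2 / (N : ℝ))) ≤ 2 * N * Real.log x :=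
    mul_le_mul_of_nonneg_left h7 (by positivity)
  have h10 : (2 * (N : ℝ)) * (-(2 / (N : ℝ))) = -4 := by
    field_simp
    norm_num
  linarith

/-- the 2x2 minors -/
lemma minor (x : ℝ) (k l : ℕ) :
    (x ^ k * ((l : ℝ) * x ^ (l - 1)) - x ^ l * ((k : ℝ) * x ^ (k - 1))) ^ 2 =
      ((l : ℝ) - k) ^ 2 * (x ^ (k + l - 1)) ^ 2 := by
  rcases Nat.eq_zero_or_pos k with rfl | hk
  · simp; ring
  · rcases Nat.eq_zero_or_pos l with rfl | hl
    · simp; ring
    · have e1 : x ^ k * x ^ (l - 1) = x ^ (k + l - 1) := by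
        rw [← pow_add]; congr 1; omega
      have e2 : x ^ l * x ^ (k - 1) = x ^ (k + l - 1) := by
        rw [← pow_add]; congr 1; omega
      calc (x ^ k * ((l : ℝ) * x ^ (l - 1)) - x ^ l * ((k : ℝ) * x ^ (k - 1))) ^ 2
          = ((l : ℝ) * (x ^ k * x ^ (l - 1)) - k * (x ^ l * x ^ (k - 1))) ^ 2 := by ring
        _ = _ := by rw [e1, e2]; ring

theorem det_ge : S_DET := by
  refine ⟨Real.exp (-8) / 256, by positivity, ?_⟩
  intro D x S hD hx0 hx1 hS hSD hxS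
  rw [lagrange]
  have he1 : Real.exp (-8) ≤ 1 := by
    rw [← Real.exp_zero]; exact Real.exp_le_exp.mpr (by norm_num)
  -- restriction to a smaller square
  have sub : ∀ N : ℕ, N ≤ D →
      ∑ k ∈ range N, ∑ l ∈ range N,
        (x ^ k * ((l : ℝ) * x ^ (l - 1)) - x ^ l * ((k : ℝ) * x ^ (k - 1))) ^ 2 ≤
      ∑ k ∈ range D, ∑ l ∈ range D,
        (x ^ k * ((l : ℝ) * x ^ (l - 1)) - x ^ l * ((k : ℝ) * x ^ (k - 1))) ^ 2 := by
    intro N hN
    have hsub : range N ⊆ range D := range_subset_range.mpr hN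
    calc ∑ k ∈ range N, ∑ l ∈ range N,
        (x ^ k * ((l : ℝ) * x ^ (l - 1)) - x ^ l * ((k : ℝ) * x ^ (k - 1))) ^ 2
        ≤ ∑ k ∈ range N, ∑ l ∈ range D,
        (x ^ k * ((l : ℝ) * x ^ (l - 1)) - x ^ l * ((k : ℝ) * x ^ (k - 1))) ^ 2 :=
          sum_le_sum fun k _ => sum_le_sum_of_subset_of_nonneg hsub fun _ _ _ => sq_nonneg _
      _ ≤ _ := sum_le_sum_of_subset_of_nonneg hsub fun _ _ _ =>
          sum_nonneg fun _ _ => sq_nonneg _
  rcases lt_or_ge S 2 with hS2 | hS2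
  · have h := sub 2 hD
    have h2 : (2 : ℝ) ≤ ∑ k ∈ range 2, ∑ l ∈ range 2,
        (x ^ k * ((l : ℝ) * x ^ (l - 1)) - x ^ l * ((k : ℝ) * x ^ (k - 1))) ^ 2 := by
      simp [sum_range_succ]
      norm_num
    have h3 : S ^ 4 ≤ 16 := by
      calc S ^ 4 ≤ 2 ^ 4 := pow_le_pow_left₀ (by linarith) hS2.le 4
        _ = 16 := by norm_num
    have h4 : Real.exp (-8) / 256 * S ^ 4 ≤ 1 := by
      calc Real.exp (-8) / 256 * S ^ 4 ≤ 1 / 256 * 16 := by
            apply mul_le_mul _ h3 (by positivity) (by norm_num)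
            linarith
        _ ≤ 1 := by norm_num
    linarith
  · set N : ℕ := ⌊S⌋₊ with hNdef
    have hN2 : 2 ≤ N := Nat.le_floor (by exact_mod_cast hS2)
    have hNS : (N : ℝ) ≤ S := Nat.floor_le (by linarith)
    have hSN : S < N + 1 := Nat.lt_floor_add_one S
    have hND : N ≤ D := by
      have : (N : ℝ) ≤ D := hNS.trans hSD
      exact_mod_cast this
    have hN2' : (2 : ℝ) ≤ N := by exact_mod_cast hN2
    have hxN : 1 - 1 / (N : ℝ) ≤ x := by
      have : 1 / S ≤ 1 / (N : ℝ) := one_div_le_one_div_of_le (by linarith) hNS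
      linarith
    have hlow := pow_low N hN2 x hxN
    have hterm : ∀ k ∈ range N, ∀ l ∈ range N, ((l : ℝ) - k) ^ 2 * Real.exp (-8) ≤
        (x ^ k * ((l : ℝ) * x ^ (l - 1)) - x ^ l * ((k : ℝ) * x ^ (k - 1))) ^ 2 := by
      intro k hk l hl
      rw [minor]
      apply mul_le_mul_of_nonneg_left _ (sq_nonneg _)
      have hk' := mem_range.mp hk
      have hl' := mem_range.mp hl
      have h1 : x ^ (2 * N) ≤ x ^ (k + l - 1) :=
        pow_le_pow_of_le_one hx0 hx1 (by omega)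
      have h2 : Real.exp (-8) = Real.exp (-4) ^ 2 := by
        rw [← Real.exp_nat_mul]; norm_num
      rw [h2]
      exact pow_le_pow_left₀ (Real.exp_pos _).le (hlow.trans h1) 2
    have h5 : Real.exp (-8) * ((N : ℝ) ^ 2 * (N ^ 2 - 1) / 6) ≤ ∑ k ∈ range N, ∑ l ∈ range N,
        (x ^ k * ((l : ℝ) * x ^ (l - 1)) - x ^ l * ((k : ℝ) * x ^ (k - 1))) ^ 2 := by
      rw [← sum_diff_sq, mul_sum]
      refine sum_le_sum fun k hk => ?_
      rw [mul_sum]
      refine sum_le_sum fun l hl => ?_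
      have := hterm k hk l hl
      linarith
    have h6 := sub N hND
    have h7 : S ^ 4 ≤ 16 * (N : ℝ) ^ 4 := by
      calc S ^ 4 ≤ (2 * (N : ℝ)) ^ 4 := pow_le_pow_left₀ (by linarith) (by linarith) 4
        _ = 16 * (N : ℝ) ^ 4 := by ring
    have h8 : (3 / 4) * (N : ℝ) ^ 4 ≤ (N : ℝ) ^ 2 * (N ^ 2 - 1) := by
      have : (4 : ℝ) ≤ (N : ℝ) ^ 2 := by nlinarith
      nlinarith [sq_nonneg (N : ℝ)]
    have h9 : Real.exp (-8) / 256 * S ^ 4 ≤
        (1 / 2) * (Real.exp (-8) * ((N : ℝ) ^ 2 * (N ^ 2 - 1) / 6)) := by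
      have he : 0 < Real.exp (-8) := Real.exp_pos _
      have : S ^ 4 / 256 ≤ (1 / 2) * ((N : ℝ) ^ 2 * (N ^ 2 - 1) / 6) := by linarith
      calc Real.exp (-8) / 256 * S ^ 4 = Real.exp (-8) * (S ^ 4 / 256) := by ring
        _ ≤ Real.exp (-8) * ((1 / 2) * ((N : ℝ) ^ 2 * (N ^ 2 - 1) / 6)) :=
          mul_le_mul_of_nonneg_left this he.le
        _ = _ := by ring
    linarith

end Pool.Agent.W513.KZ
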